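import Pool.Agent.Helper1.TE.Goals

namespace Pool.Agent.Helper85.TE

open Pool.Agent.Helper1.TE

theorem chs_mp {S : Type} (step : ℕ → ℕ → ℕ → S → Option S) (K s : ℕ) (x : S) :
    ∀ (t : ℕ) (y : S), Ch step K (s + t) x y →
      ∃ z, Ch step K s x z ∧ Ch (fun τ => step (s + τ)) K t z y := by
  intro t
  induction t with
  | zero =>
    intro y h
    exact ⟨y, h, Ch.zero y⟩
  | succ t ih =>
    intro y h
    have h2 : Ch step K ((s + t) + 1) x y := h
    cases h2 with
    | succ a b ha hb h' h'' =>
      obtain ⟨z, hz1, hz2⟩ := ih _ h'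
      exact ⟨z, hz1, Ch.succ a b ha hb hz2 h''⟩

theorem chs_mpr {S : Type} (step : ℕ → ℕ → ℕ → S → Option S) (K s : ℕ) (x z : S)
    (hz : Ch step K s x z) :
    ∀ (t : ℕ) (y : S), Ch (fun τ => step (s + τ)) K t z y → Ch step K (s + t) x y := by
  intro t
  induction t with
  | zero =>
    intro y h
    cases h with
    | zero _ => exact hz
  | succ t ih =>
    intro y h
    cases h with
    | succ a b ha hb h' h'' =>
      exact Ch.succ a b ha hb (ih _ h') h''

theorem gCHS : GoalCHS := by
  intro S step K s t x y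
  constructor
  · exact chs_mp step K s x t y
  · rintro ⟨z, hz, hy⟩
    exact chs_mpr step K s x z hz t y hy

end Pool.Agent.Helper85.TE
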